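import Mathlib
import Pool.Agent.TH342.TU.Diag

/-!
# All the moments of all the multiplicities of the quadratic characters, short squares

The curves `E_t : y² = x (x - a) (x - b)`, where `t = (a, b)` runs over the pairs of integers,
`a b (a - b) ≠ 0`, in a square of side `X` at distance at most `X ^ L` from the origin. Outside of
an exceptional set, whose proportion tends to zero uniformly as `X → ∞`, all the averages of the
suprema over all the characters `χ : Gal(F/ℚ) → {±1}` of all the Galois number fields `F` of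
`2 ^ (k m_χ(E_t)) / |D| ^ ε` are bounded, where `ℚ(√D)` is the field cut out by `χ`.
-/

set_option autoImplicit false

namespace Pool.Agent.Results.MP_775b3b_nt.AllMomentsShortSquares

open Finset WeierstrassCurve

/-- the curve `y² = x (x - a) (x - b)` over `ℚ` -/
def E (a b : ℤ) : WeierstrassCurve ℚ := ⟨0, -((a : ℚ) + b), 0, (a : ℚ) * b, 0⟩

/-- The pairs `(a, b)` with `N₁ < a ≤ N₁ + X` and `N₂ < b ≤ N₂ + X` for which
`y² = x (x - a) (x - b)` is an elliptic curve. -/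
noncomputable def Sq (N₁ N₂ : ℤ) (X : ℕ) : Finset (ℤ × ℤ) :=
  (Ioc N₁ (N₁ + X) ×ˢ Ioc N₂ (N₂ + X)).filter (fun t => t.1 ≠ 0 ∧ t.2 ≠ 0 ∧ t.1 ≠ t.2)

/-- `χ` belongs to `ℚ(√D)`: the field `F` contains a square root `s` of `D`, and `σ s = χ(σ) s`
for all `σ` in `Gal(F/ℚ)` -/
def IsChar (F : Type) [Field F] [NumberField F] (χ : (F ≃ₐ[ℚ] F) →* ℤˣ) (D : ℤ) : Prop :=
  ∃ s : F, s ^ 2 = (D : F) ∧ ∀ σ : F ≃ₐ[ℚ] F, σ s = (((χ σ : ℤˣ) : ℤ) : F) * s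

open scoped Classical in
/-- The group of the points `P` of `W` over `F` with `σ P = χ(σ) P` for all `σ` in `Gal(F/ℚ)`. -/
noncomputable def Part (F : Type) [Field F] [NumberField F] (χ : (F ≃ₐ[ℚ] F) →* ℤˣ)
    (W : WeierstrassCurve ℚ) : AddSubgroup (W.baseChange F).toAffine.Point where
  carrier := {P | ∀ σ : F ≃ₐ[ℚ] F, Affine.Point.map (W' := W.toAffine) (σ : F →ₐ[ℚ] F) P =
    ((χ σ : ℤˣ) : ℤ) • P}
  add_mem' := fun {P Q} hP hQ σ => by rw [map_add, hP σ, hQ σ, smul_add]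
  zero_mem' := fun σ => by rw [map_zero, smul_zero]
  neg_mem' := fun {P} hP σ => by rw [map_neg, hP σ, smul_neg]

open scoped Classical in
/-- The multiplicity `m_χ(W)` of `χ` in `W(F) ⊗ ℂ`: the rank of `Part F χ W`. -/
noncomputable def mult (F : Type) [Field F] [NumberField F] (χ : (F ≃ₐ[ℚ] F) →* ℤˣ)
    (W : WeierstrassCurve ℚ) : ℕ := Module.finrank ℤ (Part F χ W)

/-- almost all the pairs of the square are in `Sq N₁ N₂ X` -/
theorem card_Sq (N₁ N₂ : ℤ) (X : ℕ) : X ^ 2 ≤ (Sq N₁ N₂ X).card + 3 * X :=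
  Pool.Agent.TH342.SQ.card_Sq N₁ N₂ X

/-- every character belongs to `ℚ(√D)` for a squarefree integer `D` -/
theorem exists_isChar (F : Type) [Field F] [NumberField F] [IsGalois ℚ F]
    (χ : (F ≃ₐ[ℚ] F) →* ℤˣ) : ∃ D : ℤ, Squarefree D ∧ IsChar F χ D := by
  obtain ⟨D, s, hD, hs, hσ⟩ := Pool.Agent.W683.AT.chi F χ
  exact ⟨D, hD, s, hs, hσ⟩

/-- **Theorem.** For every `L` there are subsets `Z(N₁, N₂, X)` of the sets `Sq(N₁, N₂, X)` such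
that, for `|N₁|, |N₂| ≤ X ^ L`:

1. the proportion of `Z(N₁, N₂, X)` in `Sq(N₁, N₂, X)` tends to zero as `X → ∞`, uniformly in
`N₁`, `N₂`;

2. for every `k` and every `ε > 0` there are a function `M` of the pairs `t = (a, b)` and a
constant `C` such that `2 ^ (k m_χ(E_t)) ≤ M(t) |D| ^ ε` for all the Galois number fields `F`, all
`χ : Gal(F/ℚ) → {±1}` and all `D ≠ 0` such that `χ` belongs to `ℚ(√D)`, and such that the sum of
`M(t)` over `Sq(N₁, N₂, X)` without `Z(N₁, N₂, X)` is at most `C` times the number of the elements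
of `Sq(N₁, N₂, X)`;

3. for all `η, ε > 0` there are `C` and `X₀` such that for `X ≥ X₀` all but at most
`η * #Sq(N₁, N₂, X)` of the `t` in `Sq(N₁, N₂, X)` satisfy `m_χ(E_t) ≤ ε log |D| + C` for all these
`F`, `χ` and `D` at once. -/
theorem result (L : ℕ) : ∃ Z : ℤ → ℤ → ℕ → Finset (ℤ × ℤ),
    (∀ N₁ N₂ X, Z N₁ N₂ X ⊆ Sq N₁ N₂ X) ∧
    (∀ η : ℝ, 0 < η → ∃ X₀ : ℕ, ∀ X, X₀ ≤ X → ∀ N₁ N₂ : ℤ, |N₁| ≤ (X : ℤ) ^ L →
      |N₂| ≤ (X : ℤ) ^ L → ((Z N₁ N₂ X).card : ℝ) ≤ η * (Sq N₁ N₂ X).card) ∧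
    (∀ (k : ℕ) (ε : ℝ), 0 < ε → ∃ (M : ℤ × ℤ → ℝ) (C : ℝ),
      (∀ t : ℤ × ℤ, t.1 ≠ 0 → t.2 ≠ 0 → t.1 ≠ t.2 →
        ∀ (F : Type) [Field F] [NumberField F] [IsGalois ℚ F] (χ : (F ≃ₐ[ℚ] F) →* ℤˣ) (D : ℤ),
          D ≠ 0 → IsChar F χ D →
          (2 : ℝ) ^ (k * mult F χ (E t.1 t.2)) ≤ M t * (D.natAbs : ℝ) ^ ε) ∧
      ∀ (N₁ N₂ : ℤ) (X : ℕ), 1 ≤ X → |N₁| ≤ (X : ℤ) ^ L → |N₂| ≤ (X : ℤ) ^ L →
        ∑ t ∈ Sq N₁ N₂ X \ Z N₁ N₂ X, M t ≤ C * (Sq N₁ N₂ X).card) ∧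
    ∀ η ε : ℝ, 0 < η → 0 < ε → ∃ (C : ℝ) (X₀ : ℕ), ∀ X, X₀ ≤ X → ∀ N₁ N₂ : ℤ,
      |N₁| ≤ (X : ℤ) ^ L → |N₂| ≤ (X : ℤ) ^ L → ∃ T ⊆ Sq N₁ N₂ X,
        (T.card : ℝ) ≤ η * (Sq N₁ N₂ X).card ∧ ∀ t ∈ Sq N₁ N₂ X \ T,
        ∀ (F : Type) [Field F] [NumberField F] [IsGalois ℚ F] (χ : (F ≃ₐ[ℚ] F) →* ℤˣ) (D : ℤ),
          D ≠ 0 → IsChar F χ D →
          (mult F χ (E t.1 t.2) : ℝ) ≤ ε * Real.log D.natAbs + C := by
  classical
  have hN : ∀ (N : ℤ) (X : ℕ), |N| ≤ (X : ℤ) ^ L → N.natAbs ≤ X ^ L := by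
    intro N X hN
    have : ((N.natAbs : ℕ) : ℤ) ≤ ((X ^ L : ℕ) : ℤ) := by
      rw [Int.natCast_natAbs]
      push_cast
      exact hN
    exact_mod_cast this
  obtain ⟨Z, hZ1, hZ2, hZ3⟩ := Pool.Agent.TH342.TU.diag L
  have hZ1' : ∀ N₁ N₂ X, Z N₁ N₂ X ⊆ Sq N₁ N₂ X := hZ1
  have hZ2' : ∀ η : ℝ, 0 < η → ∃ X₀ : ℕ, ∀ X, X₀ ≤ X → ∀ N₁ N₂ : ℤ, |N₁| ≤ (X : ℤ) ^ L →
      |N₂| ≤ (X : ℤ) ^ L → ((Z N₁ N₂ X).card : ℝ) ≤ η * (Sq N₁ N₂ X).card := by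
    intro η hη
    obtain ⟨X₀, h⟩ := hZ2 η hη
    exact ⟨X₀, fun X hX N₁ N₂ h1 h2 => h X hX N₁ N₂ (hN N₁ X h1) (hN N₂ X h2)⟩
  have key : ∀ (k : ℕ) (ε : ℝ), 0 < ε → ∃ (M : ℤ × ℤ → ℝ) (C : ℝ), 0 ≤ C ∧ (∀ t, 0 ≤ M t) ∧
      (∀ t : ℤ × ℤ, t.1 ≠ 0 → t.2 ≠ 0 → t.1 ≠ t.2 →
        ∀ (F : Type) [Field F] [NumberField F] [IsGalois ℚ F] (χ : (F ≃ₐ[ℚ] F) →* ℤˣ) (D : ℤ),
          D ≠ 0 → IsChar F χ D →
          (2 : ℝ) ^ (k * mult F χ (E t.1 t.2)) ≤ M t * (D.natAbs : ℝ) ^ ε) ∧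
      ∀ (N₁ N₂ : ℤ) (X : ℕ), 1 ≤ X → |N₁| ≤ (X : ℤ) ^ L → |N₂| ≤ (X : ℤ) ^ L →
        ∑ t ∈ Sq N₁ N₂ X \ Z N₁ N₂ X, M t ≤ C * (Sq N₁ N₂ X).card := by
    intro k ε hε
    obtain ⟨n, hn⟩ := exists_nat_ge (2 / ε)
    have hn1 : 1 ≤ n := by
      rcases Nat.eq_zero_or_pos n with rfl | h
      · have : 0 < 2 / ε := by positivity
        rw [Nat.cast_zero] at hn
        linarith
      · exact h
    have hεn : 2 ≤ ε * n := by
      rw [div_le_iff₀ hε] at hn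
      linarith
    obtain ⟨C, hC, h⟩ := hZ3 ((k + 1) * n) (Nat.mul_pos (Nat.succ_pos k) hn1)
    refine ⟨fun t => 1 + Pool.Agent.TH342.TU.MP ((k + 1) * n) t, 1 + C, by positivity,
      fun t => by have := Pool.Agent.TH342.TU.MP_nonneg ((k + 1) * n) t; positivity, ?_, ?_⟩
    · intro t t1 t2 t3 F _ _ _ χ D hD hχ
      obtain ⟨s, hs, hσ⟩ := hχ
      exact Pool.Agent.TH342.TU.mult_MP hn1 hεn hD hs χ hσ t1 t2 t3
    · intro N₁ N₂ X hX h1 h2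
      have h3 := h N₁ N₂ X hX (hN N₁ X h1) (hN N₂ X h2)
      have h4 : Sq N₁ N₂ X \ Z N₁ N₂ X = (Pool.Agent.TH342.SQ.Sq N₁ N₂ X).filter
          (fun t => t ∉ Z N₁ N₂ X) := sdiff_eq_filter _ _
      have h5 : ((Sq N₁ N₂ X \ Z N₁ N₂ X).card : ℝ) ≤ (Sq N₁ N₂ X).card := by
        exact_mod_cast card_le_card sdiff_subset
      have h6 : ∑ t ∈ Sq N₁ N₂ X \ Z N₁ N₂ X, Pool.Agent.TH342.TU.MP ((k + 1) * n) t ≤
          C * (Sq N₁ N₂ X).card := by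
        rw [h4]
        exact h3
      rw [sum_add_distrib, sum_const, nsmul_eq_mul, mul_one]
      linarith
  refine ⟨Z, hZ1', hZ2', ?_, ?_⟩
  · intro k ε hε
    obtain ⟨M, C, -, -, h1, h2⟩ := key k ε hε
    exact ⟨M, C, h1, h2⟩
  · intro η ε hη hε
    obtain ⟨M, C, hC, hM, h1, h2⟩ := key 1 (ε * Real.log 2) (by
      have := Real.log_pos one_lt_two
      positivity)
    obtain ⟨X₀, hX₀⟩ := hZ2' (η / 2) (by positivity)
    set R : ℝ := 2 * (C + 1) / η with hR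
    have hR0 : 0 < R := by positivity
    refine ⟨Real.log R / Real.log 2, X₀ + 1, fun X hX N₁ N₂ hN₁ hN₂ => ?_⟩
    set A := (Sq N₁ N₂ X \ Z N₁ N₂ X).filter (fun t => R < M t) with hA
    refine ⟨Z N₁ N₂ X ∪ A, union_subset (hZ1' _ _ _) ((filter_subset _ _).trans sdiff_subset),
      ?_, ?_⟩
    · have e1 := hX₀ X (by omega) N₁ N₂ hN₁ hN₂
      have e2 := h2 N₁ N₂ X (by omega) hN₁ hN₂
      have e3 : (A.card : ℝ) * R ≤ ∑ t ∈ Sq N₁ N₂ X \ Z N₁ N₂ X, M t := by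
        rw [← nsmul_eq_mul]
        refine (card_nsmul_le_sum A M R fun t ht => (mem_filter.1 ht).2.le).trans ?_
        exact sum_le_sum_of_subset_of_nonneg (filter_subset _ _) fun t _ _ => hM t
      have e4 : ((Z N₁ N₂ X ∪ A).card : ℝ) ≤ (Z N₁ N₂ X).card + A.card := by
        exact_mod_cast card_union_le _ _
      have hc : (0 : ℝ) ≤ (Sq N₁ N₂ X).card := Nat.cast_nonneg _
      have e5 : (A.card : ℝ) ≤ η / 2 * (Sq N₁ N₂ X).card := by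
        have e6 : (A.card : ℝ) * R ≤ η / 2 * (Sq N₁ N₂ X).card * R := by
          refine (e3.trans e2).trans ?_
          have : η / 2 * (Sq N₁ N₂ X).card * R = (C + 1) * (Sq N₁ N₂ X).card := by
            rw [hR]
            field_simp
          rw [this]
          nlinarith
        exact le_of_mul_le_mul_right e6 hR0
      linarith
    · intro t ht F _ _ _ χ D hD hχ
      rw [mem_sdiff, mem_union, not_or] at ht
      obtain ⟨ht1, ht2, ht3⟩ := ht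
      obtain ⟨_, t1, t2, t3⟩ := mem_filter.1 ht1
      have hMR : M t ≤ R := by
        by_contra h
        push Not at h
        exact ht3 (mem_filter.2 ⟨mem_sdiff.2 ⟨ht1, ht2⟩, h⟩)
      have h3 := h1 t t1 t2 t3 F χ D hD hχ
      rw [one_mul] at h3
      have hDn : (0 : ℝ) < (D.natAbs : ℝ) := by exact_mod_cast Int.natAbs_pos.2 hD
      have h4 : (2 : ℝ) ^ mult F χ (E t.1 t.2) ≤ R * (D.natAbs : ℝ) ^ (ε * Real.log 2) :=
        h3.trans (mul_le_mul_of_nonneg_right hMR (by positivity))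
      have h5 := Real.log_le_log (by positivity) h4
      rw [Real.log_pow, Real.log_mul hR0.ne' (by positivity), Real.log_rpow hDn] at h5
      have hl2 := Real.log_pos one_lt_two
      have h6 : (mult F χ (E t.1 t.2) : ℝ) ≤
          (Real.log R + ε * Real.log 2 * Real.log D.natAbs) / Real.log 2 := by
        rw [le_div_iff₀ hl2]
        exact h5
      refine h6.trans (le_of_eq ?_)
      field_simp
      ring

end Pool.Agent.Results.MP_775b3b_nt.AllMomentsShortSquares
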