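import Pool.Agent.TH498.CO.U4
import Pool.Agent.TH498.CO.Mlt
import Pool.Agent.TH841.NF.FamN
import Pool.Agent.W307.RG.MqTw
import Pool.Agent.TH639.SL.Twist

/-!
# Multiplicities of quadratic characters in Mordell-Weil groups, curves ordered by the conductor

All the elliptic curves `E` over `ℚ` with full rational 2-torsion (any reduction, all quadratic
twists), ordered by the conductor `N_E ≤ N`, with `|Disc| ≤ N ^ K`. For every Galois number field
`L` and every quadratic (or trivial) character `χ` of `Gal(L/ℚ)`, that of `ℚ(√d)`,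
`|d| ≤ N ^ A`, the average over the curves of `2 ^ (θ m_χ(E))`, `θ < 2 / 3`, is at most
`C * 128 ^ ω(d)`, where `m_χ(E)` is the multiplicity of `χ` in `E(L) ⊗ ℂ`. For all the twists by
`d₀` over all the multiquadratic fields `F = ℚ(√d₁, …, √d_s)`, `|d₀ d₁ ⋯ d_s| ≤ N ^ A`, and
`ρ = rank over F + corank of the 2-primary part of Ш over F`, the average of
`2 ^ (θ ρ / 2 ^ s)` is at most `C * 128 ^ ω(d₀ d₁ ⋯ d_s)`. The constant `C` only depends on
`θ`, `K` and `A`.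
-/

set_option autoImplicit false

namespace Pool.Agent.Results.MP_775b3b_nt.ConductorOrderUniform

open Finset

open Pool.Agent.TH841.NF.D (HasDiv crk rk)

/-- the discriminant `4a³ - 27b²` of the cubic of the model `y² = x³ - a x - b` -/
def Disc (a b : ℤ) : ℤ := 4 * a ^ 3 - 27 * b ^ 2

/-- the model `y² = x³ - a x - b` is an elliptic curve and it is minimal: `|Disc|` is
smallest among the integral models `y² = x³ - a' x - b'`, `a' = u⁴ a`, `b' = u⁶ b`, `u ∈ ℚ^×` -/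
def IsMinimal (a b : ℤ) : Prop :=
  Disc a b ≠ 0 ∧ ∀ (u : ℚ) (a' b' : ℤ), u ≠ 0 → (a' : ℚ) = u ^ 4 * a → (b' : ℚ) = u ^ 6 * b →
    |Disc a b| ≤ |Disc a' b'|

/-- all 2-torsion points are rational: `x³ - a x - b` splits over `ℚ` -/
def FullTwoTorsion (a b : ℤ) : Prop :=
  ∃ r₁ r₂ r₃ : ℚ, ∀ x : ℚ, x ^ 3 - a * x - b = (x - r₁) * (x - r₂) * (x - r₃)

/-- the prime-to-6 part of the conductor of a minimal model: the product over the primes `p ≥ 5`
dividing `Disc` of `p` (multiplicative reduction: `p ∤ a`) or `p²` (additive reduction: `p ∣ a`) -/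
def Cond6 (a b : ℤ) : ℕ :=
  ∏ p ∈ (Disc a b).natAbs.primeFactors.filter (fun p => 5 ≤ p), if (p : ℤ) ∣ a then p ^ 2 else p

/-- the quadratic twist by `d` of the curve `y² = x³ - a x - b`, `q = (a, b)`, over `F`:
`y² = x³ - d² a x - d³ b` -/
def Tw (d : ℤ) (q : ℤ × ℤ) (F : Type) [Field F] : WeierstrassCurve F :=
  ⟨0, 0, 0, ((d ^ 2 * (-q.1) : ℤ) : F), ((d ^ 3 * (-q.2) : ℤ) : F)⟩

/-- the number field `F` is generated by square roots of the integers `d i` -/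
def Gen (F : Type) [Field F] [NumberField F] {s : ℕ} (d : Fin s → ℤ) : Prop :=
  ∃ x : Fin s → F, (∀ i, x i ^ 2 = (d i : F)) ∧
    IntermediateField.adjoin ℚ (Set.range x) = ⊤

open scoped Classical in
open WeierstrassCurve in
/-- the group of the points `P` over `L` of the curve `E : y² = x³ - a x - b`, `q = (a, b)`, with
`σ P = χ(σ) P` for all `σ` in `Gal(L/ℚ)` -/
noncomputable def Eig (q : ℤ × ℤ) (L : Type) [Field L] [NumberField L]
    (χ : (L ≃ₐ[ℚ] L) →* ℤˣ) :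
    AddSubgroup ((⟨0, 0, 0, -(q.1 : ℚ), -(q.2 : ℚ)⟩ : WeierstrassCurve ℚ)⁄L).toAffine.Point where
  carrier := {P | ∀ σ : L ≃ₐ[ℚ] L, Affine.Point.map
    (W' := (⟨0, 0, 0, -(q.1 : ℚ), -(q.2 : ℚ)⟩ : WeierstrassCurve ℚ).toAffine)
    (σ : L →ₐ[ℚ] L) P = ((χ σ : ℤˣ) : ℤ) • P}
  add_mem' := by
    intro P Q hP hQ σ
    rw [map_add, hP σ, hQ σ, smul_add]
  zero_mem' := by
    intro σ
    rw [map_zero, smul_zero]
  neg_mem' := by
    intro P hP σ
    rw [map_neg, hP σ, smul_neg]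

open scoped Classical in
/-- the multiplicity `m_χ(E)` of the quadratic or trivial character `χ` in `E(L) ⊗ ℂ`: the rank of
the group of the points `P` of `E` over `L` with `σ P = χ(σ) P` for all `σ` in `Gal(L/ℚ)` -/
noncomputable def mult (q : ℤ × ℤ) (L : Type) [Field L] [NumberField L]
    (χ : (L ≃ₐ[ℚ] L) →* ℤˣ) : ℕ := Module.finrank ℤ (Eig q L χ)

/-- `χ` is the character of `Gal(L/ℚ)` that belongs to `ℚ(√d)`: `L` contains a square root `r` of
`d` and `σ r = χ(σ) r` for all `σ` -/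
def IsChar (L : Type) [Field L] [NumberField L] (χ : (L ≃ₐ[ℚ] L) →* ℤˣ) (d : ℤ) : Prop :=
  ∃ r : L, r ^ 2 = (d : L) ∧ ∀ σ : L ≃ₐ[ℚ] L, σ r = ((χ σ : ℤˣ) : ℤ) * r

lemma eq_EQ (q : ℤ × ℤ) : (⟨0, 0, 0, -(q.1 : ℚ), -(q.2 : ℚ)⟩ : WeierstrassCurve ℚ) =
    Pool.Agent.TH498.CO.EQ (-q.1) (-q.2) := by
  unfold Pool.Agent.TH498.CO.EQ
  push_cast
  rfl

lemma mult_eq (q : ℤ × ℤ) (L : Type) [Field L] [NumberField L] (χ : (L ≃ₐ[ℚ] L) →* ℤˣ) :
    mult q L χ = Pool.Agent.TH498.CO.mult (Pool.Agent.TH498.CO.EQ (-q.1) (-q.2)) L χ := by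
  have h : mult q L χ = Pool.Agent.TH498.CO.mult
      (⟨0, 0, 0, -(q.1 : ℚ), -(q.2 : ℚ)⟩ : WeierstrassCurve ℚ) L χ := rfl
  rw [h, eq_EQ]

/-- the inequality of the means -/
lemma prod_rpow_le {ι : Type} [Fintype ι] [Nonempty ι] (x : ι → ℝ) (hx : ∀ i, 0 ≤ x i) (θ : ℝ) :
    (∏ i, x i) ^ (θ / Fintype.card ι) ≤ ∑ i, ((1 : ℝ) / Fintype.card ι) * x i ^ θ := by
  have hn : (0 : ℝ) < Fintype.card ι := by exact_mod_cast Fintype.card_pos
  have h1 := Real.geom_mean_le_arith_mean_weighted univ (fun _ => (1 : ℝ) / Fintype.card ι)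
    (fun i => x i ^ θ) (fun i _ => by positivity) (by
      rw [sum_const, card_univ, nsmul_eq_mul, mul_one_div_cancel hn.ne'])
    (fun i _ => Real.rpow_nonneg (hx i) _)
  refine le_trans (le_of_eq ?_) h1
  have h2 : ∀ i : ι, (x i ^ θ) ^ ((1 : ℝ) / Fintype.card ι) = x i ^ (θ / Fintype.card ι) := by
    intro i
    rw [← Real.rpow_mul (hx i)]
    congr 1
    ring
  rw [prod_congr rfl fun i _ => h2 i, Real.finsetProd_rpow _ _ (fun i _ => hx i)]

/-- **Theorem.** Let `0 < θ < 2/3`, `K ≥ 2` and `A ≥ 0`. There is `C` such that for every function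
`c` of the minimal models with full 2-torsion that differs from the prime-to-6 part `N₆` of the
conductor by a factor between `1` and `2 ^ 8 * 3 ^ 5` (for instance `c` = the conductor), and for
all real `N ≥ 4 * 10 ^ 7`, the set `S` of the minimal models with full rational 2-torsion, `c ≤ N`
and `|Disc| ≤ N ^ K` is finite, with `N ^ (2/3) / 10 ^ 6 ≤ #S ≤ C N ^ (2/3)`, and:

1. for all Galois number fields `L`, all nonzero integers `d` with `|d| ≤ N ^ A` and all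
characters `χ : Gal(L/ℚ) → {±1}` that belong to `ℚ(√d)`, with `P = C * 128 ^ ω(d)`, the sum of
`2 ^ (θ m_χ(E))` over `S` is at most `P #S`, and for all `n` at most `P #S / 2 ^ (θ n)` of the
curves have `m_χ(E) ≥ n`;

2. for all nonzero integers `d₀`, …, `d_s` with `|d₀ ⋯ d_s| ≤ N ^ A`, all `F = ℚ(√d₁, …, √d_s)`,
`α = θ / 2 ^ s`, `P = C * 128 ^ ω(d₀ ⋯ d_s)`, for the twists `W` by `d₀` over `F` and
`ρ = rank W(F) + corank Ш(W/F)[2^∞]`: the sum of `2 ^ (α ρ)` over `S` is at most `P #S`, and for all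
`n` at most `P #S / 2 ^ (α n)` of the curves have `ρ ≥ n`. -/
theorem result (θ : ℝ) (hθ0 : 0 < θ) (hθ : θ < 2 / 3) (K A : ℝ) (hK : 2 ≤ K) (hA : 0 ≤ A) :
    ∃ C : ℝ, 0 < C ∧ ∀ c : ℤ → ℤ → ℝ,
      (∀ a b : ℤ, IsMinimal a b → FullTwoTorsion a b →
        (Cond6 a b : ℝ) ≤ c a b ∧ c a b ≤ 2 ^ 8 * 3 ^ 5 * (Cond6 a b : ℝ)) →
      ∀ N : ℝ, 4 * 10 ^ 7 ≤ N → ∃ S : Finset (ℤ × ℤ),
        (∀ q : ℤ × ℤ, q ∈ S ↔ IsMinimal q.1 q.2 ∧ FullTwoTorsion q.1 q.2 ∧ c q.1 q.2 ≤ N ∧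
          |((Disc q.1 q.2 : ℤ) : ℝ)| ≤ N ^ K) ∧
        N ^ ((2 : ℝ) / 3) / 10 ^ 6 ≤ (S.card : ℝ) ∧ (S.card : ℝ) ≤ C * N ^ ((2 : ℝ) / 3) ∧
        (∀ (L : Type) [Field L] [NumberField L] [IsGalois ℚ L] (χ : (L ≃ₐ[ℚ] L) →* ℤˣ) (d : ℤ),
          d ≠ 0 → (d.natAbs : ℝ) ≤ N ^ A → IsChar L χ d →
          ∑ q ∈ S, ((2 : ℝ) ^ mult q L χ) ^ θ ≤ C * 128 ^ d.natAbs.primeFactors.card * S.card ∧
          ∀ n : ℕ, ((S.filter fun q => n ≤ mult q L χ).card : ℝ) ≤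
            C * 128 ^ d.natAbs.primeFactors.card * S.card / ((2 : ℝ) ^ n) ^ θ) ∧
        ∀ (d₀ : ℤ) (s : ℕ) (d : Fin s → ℤ), d₀ ≠ 0 → (∀ i, d i ≠ 0) →
          ((d₀ * ∏ i, d i).natAbs : ℝ) ≤ N ^ A →
          ∀ (F : Type) [Field F] [NumberField F], Gen F d →
          (∀ q ∈ S, BddAbove {m | HasDiv (Tw d₀ q F) m}) ∧
          ∑ q ∈ S, ((2 : ℝ) ^ (rk (Tw d₀ q F) + crk (Tw d₀ q F))) ^ (θ / 2 ^ s) ≤
            C * 128 ^ (d₀ * ∏ i, d i).natAbs.primeFactors.card * S.card ∧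
          ∀ n : ℕ, ((S.filter fun q => n ≤ rk (Tw d₀ q F) + crk (Tw d₀ q F)).card : ℝ) ≤
            C * 128 ^ (d₀ * ∏ i, d i).natAbs.primeFactors.card * S.card /
              ((2 : ℝ) ^ n) ^ (θ / 2 ^ s) := by
  classical
  obtain ⟨C, hC, hcur⟩ := Pool.Agent.TH498.CO.curves_sum2 θ hθ0 hθ K A (by linarith) hA
  obtain ⟨C0, hC0, hfin⟩ := Pool.Agent.TH867.EC.curS_upper 1 one_pos
  refine ⟨C * 10 ^ 6, by positivity, ?_⟩
  intro c hc N hN
  have hN1 : 1 ≤ N := by linarith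
  have hN0 : 0 < N := by linarith
  have hlogN : 1 ≤ Real.log N := by
    rw [Real.le_log_iff_exp_le hN0]
    have := Real.exp_one_lt_d9
    linarith
  set F : Set (ℤ × ℤ) := {q | IsMinimal q.1 q.2 ∧ FullTwoTorsion q.1 q.2 ∧ c q.1 q.2 ≤ N ∧
    |((Disc q.1 q.2 : ℤ) : ℝ)| ≤ N ^ K} with hF
  have hsub : F ⊆ Pool.Agent.TH867.EC.CurS N (K * Real.log N) := by
    intro q hq
    obtain ⟨h1, h2, h3, h4⟩ := hq
    refine ⟨h1, h2, (hc q.1 q.2 h1 h2).1.trans h3, ?_⟩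
    have h5 : (0 : ℝ) < |((Disc q.1 q.2 : ℤ) : ℝ)| := abs_pos.2 (by exact_mod_cast h1.1)
    have h6 := Real.log_le_log h5 h4
    rwa [Real.log_rpow hN0] at h6
  have hFfin : F.Finite := (hfin N (K * Real.log N) hN1 (by nlinarith)).1.subset hsub
  set S : Finset (ℤ × ℤ) := hFfin.toFinset with hS
  have hmem : ∀ q : ℤ × ℤ, q ∈ S ↔ IsMinimal q.1 q.2 ∧ FullTwoTorsion q.1 q.2 ∧ c q.1 q.2 ≤ N ∧
      |((Disc q.1 q.2 : ℤ) : ℝ)| ≤ N ^ K := fun q => hFfin.mem_toFinset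
  obtain ⟨n, hn, hroots, hsum⟩ := hcur N hN1 S (by
    intro q hq
    obtain ⟨h1, h2, h3, h4⟩ := (hmem q).1 hq
    exact ⟨h1, h2, (hc q.1 q.2 h1 h2).1.trans h3, h4⟩)
  have hn1 : ∀ q ∈ S, ∀ d : ℤ, d ≠ 0 → 1 ≤ n d q :=
    fun q hq d hd => Pool.Agent.TH498.CO.one_le_of_bd (hn q hq d hd)
  have hA1 : (1 : ℝ) ≤ N ^ A := Real.one_le_rpow hN1 hA
  have hcard : (S.card : ℝ) ≤ C * N ^ ((2 : ℝ) / 3) := by
    have h1 := hsum 1 one_ne_zero (by simpa using hA1)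
    have h2 : C * 128 ^ (1 : ℤ).natAbs.primeFactors.card * N ^ ((2 : ℝ) / 3) =
        C * N ^ ((2 : ℝ) / 3) := by
      simp
    rw [h2] at h1
    refine le_trans ?_ h1
    rw [Finset.card_eq_sum_ones, Nat.cast_sum]
    refine Finset.sum_le_sum fun q hq => ?_
    rw [Nat.cast_one]
    exact Real.one_le_rpow (hn1 q hq 1 one_ne_zero) hθ0.le
  have hlow : N ^ ((2 : ℝ) / 3) / 10 ^ 6 ≤ (S.card : ℝ) := by
    obtain ⟨R, hR⟩ : ∃ R : ℝ, R = N / 62208 := ⟨_, rfl⟩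
    have hR1 : 576 ≤ R := by rw [hR, le_div_iff₀ (by norm_num)]; linarith
    have hR0 : 0 < R := by linarith
    have hRN : R ≤ N := by rw [hR]; exact div_le_self hN0.le (by norm_num)
    have h1 := Pool.Agent.TH867.EC.curS_lower R (2 * Real.log R) hR1 le_rfl
    have h2 : Pool.Agent.TH867.EC.CurS R (2 * Real.log R) ⊆ (S : Set (ℤ × ℤ)) := by
      intro q hq
      obtain ⟨g1, g2, g3, g4⟩ := hq
      rw [Finset.mem_coe]
      refine (hmem q).2 ⟨g1, g2, ?_, ?_⟩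
      · have g5 := (hc q.1 q.2 g1 g2).2
        have g6 : (Cond6 q.1 q.2 : ℝ) ≤ R := g3
        rw [hR, le_div_iff₀ (by norm_num)] at g6
        have g7 : (2 : ℝ) ^ 8 * 3 ^ 5 = 62208 := by norm_num
        rw [g7] at g5
        linarith
      · have g5 : (0 : ℝ) < |((Disc q.1 q.2 : ℤ) : ℝ)| := abs_pos.2 (by exact_mod_cast g1.1)
        have g6 : Real.log |((Disc q.1 q.2 : ℤ) : ℝ)| ≤ K * Real.log N := by
          refine le_trans g4 ?_
          have g7 : Real.log R ≤ Real.log N := Real.log_le_log hR0 hRN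
          nlinarith
        rw [← Real.log_rpow hN0] at g6
        exact (Real.log_le_log_iff g5 (by positivity)).1 g6
    have h3 : ((Pool.Agent.TH867.EC.CurS R (2 * Real.log R)).ncard : ℝ) ≤ S.card := by
      have := Set.ncard_le_ncard h2 S.finite_toSet
      rw [Set.ncard_coe_finset] at this
      exact_mod_cast this
    refine le_trans ?_ (h1.trans h3)
    have h4 : (62208 : ℝ) ^ ((2 : ℝ) / 3) ≤ 1600 := by
      have e1 : (62208 : ℝ) ^ ((2 : ℝ) / 3) = ((62208 : ℝ) ^ 2) ^ ((1 : ℝ) / 3) := by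
        rw [← Real.rpow_natCast, ← Real.rpow_mul (by norm_num)]
        norm_num
      have e2 : (1600 : ℝ) = ((1600 : ℝ) ^ 3) ^ ((1 : ℝ) / 3) := by
        rw [← Real.rpow_natCast, ← Real.rpow_mul (by norm_num)]
        norm_num
      rw [e1, e2]
      exact Real.rpow_le_rpow (by norm_num) (by norm_num) (by norm_num)
    have h5 : N ^ ((2 : ℝ) / 3) = 62208 ^ ((2 : ℝ) / 3) * R ^ ((2 : ℝ) / 3) := by
      rw [← Real.mul_rpow (by norm_num) hR0.le, hR]
      congr 1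
      ring
    have h6 : 0 ≤ R ^ ((2 : ℝ) / 3) := by positivity
    rw [h5, div_le_iff₀ (by norm_num)]
    nlinarith
  have hS0 : C * N ^ ((2 : ℝ) / 3) ≤ C * 10 ^ 6 * S.card := by
    rw [div_le_iff₀ (by norm_num)] at hlow
    have : C * N ^ ((2 : ℝ) / 3) ≤ C * (S.card * 10 ^ 6) :=
      mul_le_mul_of_nonneg_left hlow (by linarith)
    linarith
  have hS1 : ∀ d : ℤ, d ≠ 0 → (d.natAbs : ℝ) ≤ N ^ A → ∑ q ∈ S, n d q ^ θ ≤
      C * 10 ^ 6 * 128 ^ d.natAbs.primeFactors.card * S.card := by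
    intro d hd hdN
    refine (hsum d hd hdN).trans ?_
    have h1 : (0 : ℝ) ≤ 128 ^ d.natAbs.primeFactors.card := by positivity
    calc C * 128 ^ d.natAbs.primeFactors.card * N ^ ((2 : ℝ) / 3)
        = 128 ^ d.natAbs.primeFactors.card * (C * N ^ ((2 : ℝ) / 3)) := by ring
      _ ≤ 128 ^ d.natAbs.primeFactors.card * (C * 10 ^ 6 * S.card) :=
          mul_le_mul_of_nonneg_left hS0 h1
      _ = _ := by ring
  have hdisc : ∀ q ∈ S, 4 * (-q.1) ^ 3 + 27 * (-q.2) ^ 2 ≠ 0 := by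
    intro q hq h
    apply ((hmem q).1 hq).1.1
    unfold Disc
    linarith
  refine ⟨S, hmem, hlow, ?_, ?_, ?_⟩
  · refine hcard.trans ?_
    refine mul_le_mul_of_nonneg_right ?_ (by positivity)
    linarith
  · intro L _ _ _ χ d hd hdN hχ
    obtain ⟨r, hr, hχr⟩ := hχ
    have hm : ∀ q ∈ S, (2 : ℝ) ^ mult q L χ ≤ n d q := by
      intro q hq
      obtain ⟨e1, e2, e3, he⟩ := hroots q hq
      have hf := Pool.Agent.W307.RG.fin_tw (hdisc q hq) he hd
      rw [mult_eq]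
      have h1 := Pool.Agent.TH498.CO.mult_le hd hr χ hχr hf
      have h2 : Pool.Agent.TH841.SH.D.HasDiv
          (Pool.Agent.W307.RT.Sh (d ^ 2 * (-q.1)) (d ^ 3 * (-q.2))) 0 :=
        ⟨0, fun _ _ _ => Subsingleton.elim _ _⟩
      have h3 := (hn q hq d hd).div_le le_rfl h2
      rw [add_zero] at h3
      refine le_trans ?_ h3
      exact pow_le_pow_right₀ (by norm_num) h1
    have h2 : ∑ q ∈ S, ((2 : ℝ) ^ mult q L χ) ^ θ ≤
        C * 10 ^ 6 * 128 ^ d.natAbs.primeFactors.card * S.card := by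
      refine le_trans (sum_le_sum fun q hq => ?_) (hS1 d hd hdN)
      exact Real.rpow_le_rpow (by positivity) (hm q hq) hθ0.le
    refine ⟨h2, fun m => ?_⟩
    rw [le_div_iff₀ (by positivity)]
    refine le_trans ?_ h2
    refine le_trans ?_ (sum_le_sum_of_subset_of_nonneg
      (filter_subset (fun q => m ≤ mult q L χ) S) (fun i _ _ => by positivity))
    rw [← nsmul_eq_mul]
    refine card_nsmul_le_sum _ _ _ fun q hq => ?_
    exact Real.rpow_le_rpow (by positivity)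
      (pow_le_pow_right₀ (by norm_num) (mem_filter.1 hq).2) hθ0.le
  · intro d₀ s d hd₀ hd hdN F _ _ hF
    have hdT : ∀ T : Finset (Fin s), d₀ * ∏ i ∈ T, d i ≠ 0 := fun T =>
      mul_ne_zero hd₀ (prod_ne_zero_iff.2 fun i _ => hd i)
    have hcs : (Fintype.card (Finset (Fin s)) : ℝ) = 2 ^ s := by
      rw [Fintype.card_finset, Fintype.card_fin]
      push_cast
      rfl
    have hdvd : ∀ T : Finset (Fin s), (d₀ * ∏ i ∈ T, d i).natAbs ∣ (d₀ * ∏ i, d i).natAbs := by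
      intro T
      rw [Int.natAbs_dvd_natAbs]
      exact mul_dvd_mul_left _ (prod_dvd_prod_of_subset _ _ _ (subset_univ T))
    refine Pool.Agent.TH841.NF.famR S (fun _ => F) (fun q => Tw d₀ q F)
      (fun q => ∏ T : Finset (Fin s), n (d₀ * ∏ i ∈ T, d i) q) (θ / 2 ^ s) (by positivity) _ ?_ ?_
    · intro q hq m hm
      obtain ⟨e1, e2, e3, he⟩ := hroots q hq
      have g2 : ∀ T : Finset (Fin s), (∏ i ∈ T, d i) ^ 2 * (d₀ ^ 2 * (-q.1)) =
          (d₀ * ∏ i ∈ T, d i) ^ 2 * (-q.1) := fun T => by ring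
      have g3 : ∀ T : Finset (Fin s), (∏ i ∈ T, d i) ^ 3 * (d₀ ^ 3 * (-q.2)) =
          (d₀ * ∏ i ∈ T, d i) ^ 3 * (-q.2) := fun T => by ring
      refine Pool.Agent.TH841.NF.one_field hF hd
        (Pool.Agent.TH639.SL.disc_tw hd₀ (hdisc q hq)) _ ?_ ?_ hm
      · intro T
        rw [g2, g3]
        exact hn q hq _ (hdT T)
      · intro T
        rw [g2, g3]
        exact Pool.Agent.W307.RG.fin_tw (hdisc q hq) he (hdT T)
    · have h1 : ∀ q ∈ S, (∏ T : Finset (Fin s), n (d₀ * ∏ i ∈ T, d i) q) ^ (θ / 2 ^ s) ≤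
          ∑ T : Finset (Fin s), ((1 : ℝ) / 2 ^ s) * n (d₀ * ∏ i ∈ T, d i) q ^ θ := by
        intro q hq
        have := prod_rpow_le (fun T : Finset (Fin s) => n (d₀ * ∏ i ∈ T, d i) q)
          (fun T => zero_le_one.trans (hn1 q hq _ (hdT T))) θ
        rw [hcs] at this
        exact this
      refine (sum_le_sum h1).trans ?_
      rw [sum_comm]
      have h2 : ∀ T : Finset (Fin s), ∑ q ∈ S, ((1 : ℝ) / 2 ^ s) *
          n (d₀ * ∏ i ∈ T, d i) q ^ θ ≤ ((1 : ℝ) / 2 ^ s) *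
          (C * 10 ^ 6 * 128 ^ (d₀ * ∏ i, d i).natAbs.primeFactors.card * S.card) := by
        intro T
        rw [← mul_sum]
        refine mul_le_mul_of_nonneg_left ?_ (by positivity)
        have h0 : (d₀ * ∏ i, d i).natAbs ≠ 0 := by
          rw [Ne, Int.natAbs_eq_zero]
          exact hdT univ
        have h3 := hS1 _ (hdT T) (le_trans (by
          exact_mod_cast Nat.le_of_dvd (Nat.pos_of_ne_zero h0) (hdvd T)) hdN)
        refine h3.trans ?_
        have h4 : (d₀ * ∏ i ∈ T, d i).natAbs.primeFactors.card ≤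
            (d₀ * ∏ i, d i).natAbs.primeFactors.card :=
          card_le_card (Nat.primeFactors_mono (hdvd T) h0)
        have h5 : (128 : ℝ) ^ (d₀ * ∏ i ∈ T, d i).natAbs.primeFactors.card ≤
            128 ^ (d₀ * ∏ i, d i).natAbs.primeFactors.card :=
          pow_le_pow_right₀ (by norm_num) h4
        gcongr
      refine (sum_le_sum fun T _ => h2 T).trans (le_of_eq ?_)
      rw [sum_const, card_univ, nsmul_eq_mul, hcs, ← mul_assoc]
      rw [mul_one_div_cancel (by positivity), one_mul]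

end Pool.Agent.Results.MP_775b3b_nt.ConductorOrderUniform
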