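import Mathlib
import Pool.Agent.TH342.ChiAll

/-!
# The multiplicities of the quadratic characters in the Mordell-Weil groups, short squares

The curves `E : y² = x (x - a) (x - b)`, where `(a, b)` runs over the pairs of integers,
`a b (a - b) ≠ 0`, in a square of side `X` at distance at most `X ^ L` from the origin.
For every homomorphism `χ : Gal(F/ℚ) → {±1}`, `F` a Galois number field, the average of
`4 ^ m_χ(E)` over these curves is at most `C 128 ^ ω(D)`, where `ℚ(√D)` is the field cut out by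
`χ`. Moreover, the average over these curves of the supremum over all `χ` of
`4 ^ m_χ(E) / |D| ^ (1 + ε)` is bounded. The bounds depend on `L` and `ε` only.
-/

set_option autoImplicit false

namespace Pool.Agent.Results.MP_775b3b_nt.ShortSquares

open Finset WeierstrassCurve

/-- the curve `y² = x (x - a) (x - b)` over `ℚ` -/
def E (a b : ℤ) : WeierstrassCurve ℚ := ⟨0, -((a : ℚ) + b), 0, (a : ℚ) * b, 0⟩

/-- The pairs `(a, b)` with `N₁ < a ≤ N₁ + X` and `N₂ < b ≤ N₂ + X` for which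
`y² = x (x - a) (x - b)` is an elliptic curve. -/
noncomputable def Sq (N₁ N₂ : ℤ) (X : ℕ) : Finset (ℤ × ℤ) :=
  (Ioc N₁ (N₁ + X) ×ˢ Ioc N₂ (N₂ + X)).filter (fun t => t.1 ≠ 0 ∧ t.2 ≠ 0 ∧ t.1 ≠ t.2)

/-- `χ` belongs to `ℚ(√D)`: the field `F` contains a square root `s` of `D`, and `σ s = χ(σ) s`
for all `σ` in `Gal(F/ℚ)` -/
def IsChar (F : Type) [Field F] [NumberField F] (χ : (F ≃ₐ[ℚ] F) →* ℤˣ) (D : ℤ) : Prop :=
  ∃ s : F, s ^ 2 = (D : F) ∧ ∀ σ : F ≃ₐ[ℚ] F, σ s = (((χ σ : ℤˣ) : ℤ) : F) * s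

open scoped Classical in
/-- The group of the points `P` of `W` over `F` with `σ P = χ(σ) P` for all `σ` in `Gal(F/ℚ)`. -/
noncomputable def Part (F : Type) [Field F] [NumberField F] (χ : (F ≃ₐ[ℚ] F) →* ℤˣ)
    (W : WeierstrassCurve ℚ) : AddSubgroup (W.baseChange F).toAffine.Point where
  carrier := {P | ∀ σ : F ≃ₐ[ℚ] F, Affine.Point.map (W' := W.toAffine) (σ : F →ₐ[ℚ] F) P =
    ((χ σ : ℤˣ) : ℤ) • P}
  add_mem' := fun {P Q} hP hQ σ => by rw [map_add, hP σ, hQ σ, smul_add]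
  zero_mem' := fun σ => by rw [map_zero, smul_zero]
  neg_mem' := fun {P} hP σ => by rw [map_neg, hP σ, smul_neg]

open scoped Classical in
/-- The multiplicity `m_χ(W)` of `χ` in `W(F) ⊗ ℂ`: the rank of `Part F χ W`. -/
noncomputable def mult (F : Type) [Field F] [NumberField F] (χ : (F ≃ₐ[ℚ] F) →* ℤˣ)
    (W : WeierstrassCurve ℚ) : ℕ := Module.finrank ℤ (Part F χ W)

/-- almost all the pairs of the square are in `Sq N₁ N₂ X` -/
theorem card_Sq (N₁ N₂ : ℤ) (X : ℕ) : X ^ 2 ≤ (Sq N₁ N₂ X).card + 3 * X :=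
  Pool.Agent.TH342.SQ.card_Sq N₁ N₂ X

/-- **Theorem.**

1. For every `L` there is `C` such that for every finite Galois extension `F` of `ℚ` and every
homomorphism `χ : Gal(F/ℚ) → {±1}` there is a squarefree integer `D` such that `χ` belongs to
`ℚ(√D)` and for all integers `X ≥ 1`, `|N₁|, |N₂| ≤ X ^ L`: the sum of `4 ^ m_χ(E)` over the curves
`E : y² = x (x - a) (x - b)`, `(a, b)` in the square `(N₁, N₁ + X] × (N₂, N₂ + X]`,
`a b (a - b) ≠ 0`, is at most `C * 128 ^ ω(D)` times their number, and for all `r` the proportion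
of these curves with `m_χ(E) ≥ r` is at most `C * 128 ^ ω(D) / 4 ^ r`.

2. For every `ε > 0` there is a function `M` of the pairs `(a, b)` such that
`4 ^ m_χ(E) ≤ M(a, b) * |D| ^ (1 + ε)` for `E : y² = x (x - a) (x - b)` and all the characters
`χ` at once, and such that the average of `M` over each of these squares is at most a constant `K`
which depends on `L` and `ε` only. -/
theorem result :
    (∀ L : ℕ, ∃ C : ℝ, ∀ (F : Type) [Field F] [NumberField F] [IsGalois ℚ F]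
      (χ : (F ≃ₐ[ℚ] F) →* ℤˣ), ∃ D : ℤ, Squarefree D ∧ IsChar F χ D ∧
      ∀ (N₁ N₂ : ℤ) (X : ℕ), 1 ≤ X → |N₁| ≤ (X : ℤ) ^ L → |N₂| ≤ (X : ℤ) ^ L →
        ∑ t ∈ Sq N₁ N₂ X, (4 : ℝ) ^ mult F χ (E t.1 t.2) ≤
          C * 128 ^ D.natAbs.primeFactors.card * (Sq N₁ N₂ X).card ∧
        ∀ r : ℕ, (((Sq N₁ N₂ X).filter fun t => r ≤ mult F χ (E t.1 t.2)).card : ℝ) ≤
          C * 128 ^ D.natAbs.primeFactors.card * (Sq N₁ N₂ X).card / 4 ^ r) ∧
    ∀ ε : ℝ, 0 < ε → ∃ M : ℤ × ℤ → ℝ,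
      (∀ t : ℤ × ℤ, t.1 ≠ 0 → t.2 ≠ 0 → t.1 ≠ t.2 →
        ∀ (F : Type) [Field F] [NumberField F] [IsGalois ℚ F] (χ : (F ≃ₐ[ℚ] F) →* ℤˣ) (D : ℤ),
          D ≠ 0 → IsChar F χ D →
          (4 : ℝ) ^ mult F χ (E t.1 t.2) ≤ M t * (D.natAbs : ℝ) ^ (1 + ε)) ∧
      ∀ L : ℕ, ∃ K : ℝ, ∀ (N₁ N₂ : ℤ) (X : ℕ), 1 ≤ X → |N₁| ≤ (X : ℤ) ^ L →
        |N₂| ≤ (X : ℤ) ^ L → ∑ t ∈ Sq N₁ N₂ X, M t ≤ K * (Sq N₁ N₂ X).card := by
  constructor
  · intro L
    obtain ⟨C, hC, hm⟩ := Pool.Agent.TH342.SQ.moment L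
    refine ⟨C, fun F _ _ _ χ => ?_⟩
    obtain ⟨D, s, hD, hs, hσ⟩ := Pool.Agent.W683.AT.chi F χ
    refine ⟨D, hD, ⟨s, hs, hσ⟩, fun N₁ N₂ X hX hN₁ hN₂ => ?_⟩
    have h1 : ∑ t ∈ Sq N₁ N₂ X, (4 : ℝ) ^ mult F χ (E t.1 t.2) ≤
        C * 128 ^ D.natAbs.primeFactors.card * (Sq N₁ N₂ X).card := by
      refine le_trans (sum_le_sum fun t ht => ?_) (hm D N₁ N₂ X hD.ne_zero hX hN₁ hN₂)
      obtain ⟨_, t1, t2, t3⟩ := mem_filter.1 ht
      exact Pool.Agent.TH342.SQ.mult_sel hD.ne_zero hs χ hσ t1 t2 t3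
    refine ⟨h1, fun r => ?_⟩
    rw [le_div_iff₀ (by positivity)]
    refine le_trans ?_ h1
    refine le_trans ?_ (sum_le_sum_of_subset_of_nonneg (filter_subset (fun t : ℤ × ℤ =>
      r ≤ mult F χ (E t.1 t.2)) _) (fun _ _ _ => by positivity))
    rw [← nsmul_eq_mul]
    refine card_nsmul_le_sum _ _ _ fun t ht => ?_
    exact pow_le_pow_right₀ (by norm_num) (mem_filter.1 ht).2
  · intro ε hε
    refine ⟨Pool.Agent.TH342.SQ.MM ε, ?_, fun L => ?_⟩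
    · intro t t1 t2 t3 F _ _ _ χ D hD hχ
      obtain ⟨s, hs, hσ⟩ := hχ
      exact (Pool.Agent.TH342.SQ.mult_sel hD hs χ hσ t1 t2 t3).trans
        (Pool.Agent.TH342.SQ.GD_le_MM ε hε t hD)
    · obtain ⟨K, -, hK⟩ := Pool.Agent.TH342.SQ.all_twists ε hε L
      exact ⟨K, hK⟩

end Pool.Agent.Results.MP_775b3b_nt.ShortSquares
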