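import Pool.Agent.TH944.Del.MinM

open Pool.Agent.TH965.Stk Pool.Agent.TH944.Tw

namespace Pool.Agent.Results.MP_775b3b_nt.TotallyComplexTwists

/-- For 100% of the elliptic curves `E` over `ℚ` the multiplicity of an irreducible character is
`1` if it belongs to the set of self-dual ones with root number `-1` and `0` if not, for all
irreducible characters, if and only if this holds for the trivial character, and for all linear
characters `ψ` of totally complex number fields `K` with at least `N` complex places, for 100% of
`E`, the multiplicity of the induced character is the number of its irreducible constituents which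
are self-dual with root number `-1`. -/
theorem result (T : Minimal) (N : ℕ) :
    (∀ χ ∈ T.irr, Hundred fun x => (χ ∈ T.neg x → T.m x χ = 1) ∧ (χ ∉ T.neg x → T.m x χ = 0)) ↔
    ((Hundred fun x => ((fun _ => 1) ∈ T.neg x → T.m x (fun _ => 1) = 1) ∧
      ((fun _ => 1) ∉ T.neg x → T.m x (fun _ => 1) = 0)) ∧
      ∀ K, IsNF K → N ≤ r2 K → IsTC K → ∀ ψ : LinChar K,
        Hundred fun x => T.m x (ind QQ K ψ.fn) = T.e x (ind QQ K ψ.fn)) :=
  main_minimal T N

end Pool.Agent.Results.MP_775b3b_nt.TotallyComplexTwists
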